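import Pool.Agent.W941.MG.Stm

/-!
Project MG, part IDL.
-/

namespace Pool.Agent.W578.MG

open MvPolynomial Pool.Agent.W941.MG

set_option autoImplicit false

theorem cf_mul {b : ℕ} {N : Type} (p q : Fam b N) (a : Fin b →₀ ℕ) :
    cf a (p * q) = ∑ c ∈ Finset.HasAntidiagonal.antidiagonal a, cf c.1 p * cf c.2 q := by
  classical
  funext x
  simp only [cf, Pi.mul_apply, coeff_mul, Finset.sum_apply]

theorem cls_mul (hF : FlStmt) {b n : ℕ} {N K : Type} {A : Fin b → N → Finset (Fin n)}
    {V : K → Fam b N} {own : K → Fin b} {a₀ a₁ : Fin b →₀ ℕ} {F G : (Fin b → N) → ℂ}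
    (h : F ∈ Cls A V own a₀) (hG : G ∈ Fl A a₁) : F * G ∈ Cls A V own (a₀ + a₁) := by
  unfold Cls at h
  induction h using Submodule.span_induction with
  | mem x hx =>
    obtain ⟨κ, a, a', H, h1, h2, h3, rfl⟩ := hx
    refine Submodule.subset_span ⟨κ, a, a' + a₁, H * G, ?_, h2, hF b n N A a' a₁ H G h3 hG, ?_⟩
    · rw [← h1, add_assoc]
    · rw [mul_assoc]
  | zero => rw [zero_mul]; exact Submodule.zero_mem _
  | add x y _ _ hx hy => rw [add_mul]; exact Submodule.add_mem _ hx hy
  | smul c x _ hx => rw [smul_mul_assoc]; exact Submodule.smul_mem _ c hx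

theorem idl (hF : FlStmt) (hR : RegStmt) : IdlStmt := by
  intro b n N K A V own
  obtain ⟨⟨B, hB⟩, -⟩ := hR b n N A
  have h0 : InI A V own 0 := by
    intro a
    have : cf a (0 : Fam b N) = 0 := by
      funext x; simp [cf]
    rw [this]; exact Submodule.zero_mem _
  have hadd : ∀ p q, InI A V own p → InI A V own q → InI A V own (p + q) := by
    intro p q hp hq a
    have : cf a (p + q) = cf a p + cf a q := by
      funext x; simp [cf]
    rw [this]; exact Submodule.add_mem _ (hp a) (hq a)
  have hmul : ∀ p q, InI A V own p → Reg A q → InI A V own (p * q) := by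
    intro p q hp hq a
    rw [cf_mul]
    refine Submodule.sum_mem _ fun c hc => ?_
    rw [Finset.HasAntidiagonal.mem_antidiagonal] at hc
    have := cls_mul hF (hp c.1) (hq c.2)
    rwa [hc] at this
  have hregA : ∀ (σ : Type) (z : σ → Fam b N), (∀ r, Reg A (z r)) → ∀ q : MvPolynomial σ ℂ,
      Reg A (aeval z q) := by
    intro σ z hz q
    rw [← hB]
    induction q using MvPolynomial.induction_on with
    | C c => rw [aeval_C]; exact B.algebraMap_mem c
    | add p q hp hq => rw [map_add]; exact B.add_mem hp hq
    | mul_X p i hp => rw [map_mul, aeval_X]; exact B.mul_mem hp ((hB _).2 (hz i))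
  have hprod : ∀ (σ : Type) (s : Finset σ) (z : σ → Fam b N), (∀ r, Reg A (z r)) →
      Reg A (∏ r ∈ s, z r) := by
    intro σ s z hz
    rw [← hB]
    exact B.prod_mem fun r _ => (hB _).2 (hz r)
  refine ⟨h0, hadd, hmul, ?_, ?_⟩
  · intro σ z z' hz hz' hd q
    refine ⟨?_, hregA σ z hz q, hregA σ z' hz' q⟩
    induction q using MvPolynomial.induction_on with
    | C c => rw [aeval_C, aeval_C, sub_self]; exact h0
    | add p q hp hq =>
      rw [map_add, map_add, add_sub_add_comm]; exact hadd _ _ hp hq
    | mul_X p i hp =>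
      rw [map_mul, map_mul, aeval_X, aeval_X]
      have e : (aeval z p) * z i - (aeval z' p) * z' i =
          (aeval z p - aeval z' p) * z i + (z i - z' i) * aeval z' p := by ring
      rw [e]
      exact hadd _ _ (hmul _ _ hp (hz i)) (hmul _ _ (hd i) (hregA σ z' hz' p))
  · intro σ _ z z' hz hz' hd
    classical
    refine ⟨?_, ?_, hprod σ _ z' hz'⟩
    · have : ∀ s : Finset σ, InI A V own ((∑ r ∈ s, z r) - ∑ r ∈ s, z' r) := by
        intro s
        induction s using Finset.induction_on with
        | empty => simpa using h0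
        | insert a s ha ih =>
          rw [Finset.sum_insert ha, Finset.sum_insert ha, add_sub_add_comm]
          exact hadd _ _ (hd a) ih
      exact this _
    · have : ∀ s : Finset σ, InI A V own ((∏ r ∈ s, z r) - ∏ r ∈ s, z' r) := by
        intro s
        induction s using Finset.induction_on with
        | empty => simpa using h0
        | insert a s ha ih =>
          rw [Finset.prod_insert ha, Finset.prod_insert ha]
          have e : z a * (∏ r ∈ s, z r) - z' a * ∏ r ∈ s, z' r =
              (z a - z' a) * (∏ r ∈ s, z r) + ((∏ r ∈ s, z r) - ∏ r ∈ s, z' r) * z' a := by ring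
          rw [e]
          exact hadd _ _ (hmul _ _ (hd a) (hprod σ s z hz)) (hmul _ _ ih (hz' a))
      exact this _

end Pool.Agent.W578.MG
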